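import Pool.Agent.Lead.Mad1

namespace Pool.Agent.Results.MP_af84fe_lc.Q1
open Set Filter Topology Classical Pool.Agent.Lead

/-- `|A ∩ {0, …, n-1}|`. -/
noncomputable def cnt (A : Set ℕ) (n : ℕ) : ℕ := ((Finset.range n).filter (· ∈ A)).card

/-- The density zero ideal. -/
def Z (A : Set ℕ) : Prop := Tendsto (fun n => (cnt A n : ℝ) / n) atTop (𝓝 0)

/-- The subset of `ℕ` given by a point of the Cantor space. -/
def S (χ : ℕ → Bool) : Set ℕ := {n | χ n = true}

def MAD (𝒜 : Set (ℕ → Bool)) : Prop :=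
  (∀ A ∈ 𝒜, ¬ Z (S A)) ∧ (∀ A ∈ 𝒜, ∀ B ∈ 𝒜, A ≠ B → Z (S A ∩ S B)) ∧
    ∀ X, ¬ Z X → ∃ A ∈ 𝒜, ¬ Z (X ∩ S A)

lemma Z_iff {A} : Z A ↔ ∀ l : ℕ, ∀ᶠ n in atTop, (l + 1) * cnt A n ≤ n := by
  constructor
  · intro h l
    filter_upwards [h.eventually (gt_mem_nhds (show (0 : ℝ) < 1 / (l + 1) by positivity)),
      eventually_gt_atTop 0] with n h1 h2
    rw [div_lt_div_iff₀ (by positivity) (by positivity)] at h1
    have : ((l + 1) * cnt A n : ℕ) ≤ ((n : ℕ) : ℝ) := by push_cast; linarith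
    exact_mod_cast this
  · intro h
    refine tendsto_order.2 ⟨fun a ha => .of_forall fun n => ha.trans_le (by positivity),
      fun a ha => ?_⟩
    obtain ⟨l, hl⟩ := exists_nat_one_div_lt ha
    filter_upwards [h l, eventually_gt_atTop 0] with n h1 h2
    refine lt_of_le_of_lt ?_ hl
    rw [div_le_div_iff₀ (by positivity) (by positivity)]
    have : (((l + 1) * cnt A n : ℕ) : ℝ) ≤ n := by exact_mod_cast h1
    push_cast at this; linarith

lemma cnt_le {A B C : Set ℕ} {n m k} (h : ∀ i < n, i ∈ A → (i < m ∧ i ∈ B) ∨ (i < k ∧ i ∈ C)) :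
    cnt A n ≤ cnt B m + cnt C k := by
  refine le_trans (Finset.card_le_card fun i hi => ?_) (Finset.card_union_le _ _)
  simp only [Finset.mem_union, Finset.mem_filter, Finset.mem_range] at hi ⊢
  exact h i hi.1 hi.2

lemma cnt_empty (n) : cnt ∅ n = 0 := by simp [cnt]

lemma cnt_univ (n) : cnt univ n = n := by simp [cnt]

lemma cnt_mono {A B : Set ℕ} (h : A ⊆ B) (n) : cnt A n ≤ cnt B n := by
  simpa [cnt_empty] using cnt_le (C := ∅) (k := 0) fun i hi a => Or.inl ⟨hi, h a⟩

lemma Z_biUnion {ι : Type} (F : Finset ι) (A : ι → Set ℕ) (h : ∀ i ∈ F, Z (A i)) :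
    Z (⋃ i ∈ F, A i) := by
  induction F using Finset.induction_on with
  | empty => exact Z_iff.2 fun l => .of_forall fun n => by simp [cnt]
  | insert i F _ ih =>
    rw [Finset.set_biUnion_insert]
    refine Z_iff.2 fun l => ?_
    filter_upwards [Z_iff.1 (h i (by simp)) (2 * l + 1),
      Z_iff.1 (ih fun j hj => h j (by simp [hj])) (2 * l + 1)] with n a b
    have := Nat.mul_le_mul_left (l + 1) (cnt_le (A := A i ∪ ⋃ j ∈ F, A j) (n := n)
      fun x hx c => c.imp (⟨hx, ·⟩) (⟨hx, ·⟩))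
    nlinarith

lemma bonf {ι : Type} (F : Finset ι) (A : ι → Set ℕ) (D : Set ℕ)
    (h : ∀ i ∈ F, ∀ j ∈ F, i ≠ j → A i ∩ A j ⊆ D) (n) :
    ∑ i ∈ F, cnt (A i) n ≤ n + F.card * cnt D n := by
  calc ∑ i ∈ F, cnt (A i) n ≤ ∑ i ∈ F, (cnt (A i \ D) n + cnt D n) :=
        Finset.sum_le_sum fun i _ => cnt_le fun x hx a => by by_cases b : x ∈ D <;> simp_all
    _ ≤ _ := by
        rw [Finset.sum_add_distrib, Finset.sum_const, smul_eq_mul]
        refine Nat.add_le_add_right ?_ _
        unfold cnt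
        rw [← Finset.card_biUnion]
        · refine (Finset.card_le_card (t := Finset.range n) (Finset.biUnion_subset.2 fun i _ x hx =>
            ?_)).trans (by simp)
          simp only [Finset.mem_filter] at hx
          exact hx.1
        · intro i hi j hj hij
          refine Finset.disjoint_left.2 fun x a b => ?_
          simp only [Finset.mem_filter] at a b
          exact a.2.2 (h i hi j hj hij ⟨a.2.1, b.2.1⟩)

lemma cnt_cont (B : Set ℕ) (n) : Continuous fun A : ℕ → Bool => cnt (S A ∩ B) n := by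
  simp only [cnt, Finset.card_filter]
  refine continuous_finsetSum _ fun i _ => ?_
  exact (continuous_of_discreteTopology (f := fun b : Bool => if b = true ∧ i ∈ B then 1 else 0)).comp
    (continuous_apply i) |>.congr fun A => by simp [S]

theorem result (𝒜 : Set (ℕ → Bool)) (ha : MeasureTheory.AnalyticSet 𝒜) (h : MAD 𝒜) :
    𝒜.Countable := by
  by_contra hc
  rw [MeasureTheory.AnalyticSet] at ha
  obtain ⟨f, hf, rfl⟩ := ha.resolve_left fun e => hc (e ▸ countable_empty)
  obtain ⟨e, he⟩ : ∃ e : ℕ, {A ∈ range f | ∃ᶠ n in atTop, n < (e + 1) * cnt (S A) n}.Infinite := by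
    by_contra c
    push Not at c
    refine hc ((countable_iUnion fun e => (c e).countable).mono fun A hA => ?_)
    obtain ⟨e, he⟩ := not_forall.1 (mt Z_iff.2 (h.1 A hA))
    exact mem_iUnion.2 ⟨e, hA, by simpa only [not_eventually, not_le] using he⟩
  let B := he.natEmbedding
  choose g g1 g2 using fun k b => frequently_atTop.1 (B (Nat.unpair k).1).2.2 b
  let n : ℕ → ℕ := fun k =>
    Nat.rec (g 0 1) (fun k m => g (k + 1) (2 * (e + 1) * ((k + 1) * m))) k
  have n1 : ∀ k, 2 * (e + 1) * ((k + 1) * n k) ≤ n (k + 1) := fun k => g1 _ _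
  have n2 : ∀ k, n k < (e + 1) * cnt (S (B (Nat.unpair k).1)) (n k) := fun k => by
    cases k <;> exact g2 _ _
  have n0 : ∀ k, 0 < n k := fun k => by
    induction k with
    | zero => exact g1 0 1
    | succ k ih => exact lt_of_lt_of_le (by positivity) (n1 k)
  have n3 : StrictMono n := strictMono_nat_of_lt_succ fun k => by
    have c : n k ≤ (k + 1) * n k := Nat.le_mul_of_pos_left _ (Nat.succ_pos k)
    have d := n1 k
    have d0 := n0 k
    generalize (k + 1) * n k = u at c d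
    nlinarith
  clear_value n
  have nt := n3.tendsto_atTop
  let a : ℕ → ℕ := fun k => n k / (2 * (e + 1))
  have a1 : ∀ k, (k + 1) * n k ≤ a (k + 1) := fun k =>
    (Nat.le_div_iff_mul_le (by positivity)).2 (by rw [mul_comm]; exact n1 k)
  have a2 : ∀ k, 2 * (e + 1) * a k ≤ n k := fun k => Nat.mul_div_le _ _
  have a3 : ∀ k, n k < 2 * (e + 1) * (a k + 1) := fun k => Nat.lt_mul_div_succ _ (by positivity)
  have a4 : Monotone a := fun i j h => Nat.div_le_div_right (n3.monotone h)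
  clear_value a
  obtain ⟨Y, y1, y2⟩ := Mad.main (α := range f)
    (T := fun A l => {k | n k ≤ (l + 1) * cnt (S A ∩ S (B (Nat.unpair k).1)) (n k)})
    (fun l => ⟨l + 2, fun F hF => by
      have hD := Z_biUnion (F.offDiag) (fun p => S p.1 ∩ S p.2) fun p hp =>
        h.2.1 _ p.1.2 _ p.2.2 (Subtype.coe_ne_coe.2 (Finset.mem_offDiag.1 hp).2.2)
      obtain ⟨K, hK⟩ := eventually_atTop.1 (nt.eventually (Z_iff.1 hD ((l + 1) * (l + 2))))
      refine (finite_Iio K).subset fun k hk => mem_Iio.2 (lt_of_not_ge fun c => ?_)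
      have b1 := bonf F (fun A => S A) _ (fun i hi j hj hij => subset_biUnion_of_mem
        (u := fun p : range f × range f => S p.1 ∩ S p.2)
        (show (i, j) ∈ F.offDiag from Finset.mem_offDiag.2 ⟨hi, hj, hij⟩)) (n k)
      have b2 : ∑ i ∈ F, n k ≤ ∑ i ∈ F, (l + 1) * cnt (S i) (n k) := Finset.sum_le_sum fun i hi =>
        (mem_iInter₂.1 hk i hi).trans (Nat.mul_le_mul_left _ (cnt_mono inter_subset_left _))
      rw [Finset.sum_const, smul_eq_mul, ← Finset.mul_sum, hF] at b2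
      rw [hF] at b1
      have b3 := hK k c
      have b4 := Nat.mul_le_mul_left (l + 1) b1
      have b5 := n0 k
      simp only [Finset.mem_coe] at b4
      generalize cnt (⋃ i ∈ F.offDiag, S i.1 ∩ S i.2) (n k) = d at b3 b4
      rcases d with _ | d <;> nlinarith⟩)
    (fun A l l' hl k hk => le_trans hk (Nat.mul_le_mul_right _ (by omega))) (by
      rintro ⟨F, l, hF⟩
      obtain ⟨j, -, hj⟩ := infinite_univ.exists_notMem_finite
        ((F.finite_toSet.image Subtype.val).preimage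
          (Subtype.val_injective.comp B.injective).injOn)
      have : ∀ A ∈ F, ∀ᶠ k in atTop, (l + 1 + 1) * cnt (S A ∩ S (B j)) (n k) ≤ n k := fun A hA =>
        nt.eventually (Z_iff.1 (h.2.1 _ A.2 _ (B j).2.1 fun c => hj ⟨A, hA, c⟩) (l + 1))
      obtain ⟨K, hK⟩ := eventually_atTop.1 ((eventually_all_finset F).2 this)
      obtain ⟨b, hb⟩ := hF.bddAbove
      have r := Nat.right_le_pair j (K + b + 1)
      refine absurd (hb ⟨trivial, fun c => ?_⟩) (not_le.2 (show b < Nat.pair j (K + b + 1) by omega))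
      obtain ⟨A, hA, c⟩ := mem_iUnion₂.1 c
      have c1 := hK (Nat.pair j (K + b + 1)) (by omega) A hA
      have c2 := n0 (Nat.pair j (K + b + 1))
      simp only [mem_ofPred_eq, Nat.unpair_pair] at c
      generalize cnt (S A ∩ S (B j)) _ = d at c c1
      rcases d with _ | d <;> nlinarith)
    (rangeFactorization f) (hf.subtype_mk _) fun l t =>
      (isOpen_discrete {c | n t ≤ (l + 1) * c}).preimage
        ((cnt_cont _ _).comp continuous_subtype_val)
  obtain ⟨_, ⟨x, rfl⟩, hx⟩ := h.2.2 {i | ∃ k ∈ Y, i ∈ S (B (Nat.unpair k).1) ∧ a k ≤ i ∧ i < n k}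
    fun c => by
      obtain ⟨K, hK⟩ := eventually_atTop.1 (nt.eventually (Z_iff.1 c (2 * e + 1)))
      obtain ⟨k, k1, k2⟩ := y1.exists_gt K
      have b1 := hK k k2.le
      have b2 := cnt_le (A := S (B (Nat.unpair k).1)) (n := n k) (m := n k) (k := a k) (C := univ)
        (B := {i | ∃ k ∈ Y, i ∈ S (B (Nat.unpair k).1) ∧ a k ≤ i ∧ i < n k}) fun i hi c =>
          (le_or_gt (a k) i).imp (fun d => ⟨hi, k, k1, c, d, hi⟩) fun d => ⟨d, trivial⟩
      rw [cnt_univ] at b2
      nlinarith [n2 k, a2 k, Nat.mul_le_mul_left (e + 1) b2]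
  refine hx (Z_iff.2 fun l => ?_)
  obtain ⟨b, hb⟩ := (y2 x (8 * (l + 1) * (e + 1))).bddAbove
  refine eventually_atTop.2 ⟨a (b + 2 * l + 1 + 1), fun m hm => ?_⟩
  have ex : ∃ k, m < a (b + 2 * l + 1 + 1 + k + 1) :=
    ⟨m, lt_of_lt_of_le (by nlinarith [n0 (b + 2 * l + 1 + 1 + m)]) (a1 _)⟩
  obtain ⟨k, k1, k2, k3⟩ : ∃ k, b + 2 * l + 1 ≤ k ∧ a (k + 1) ≤ m ∧ m < a (k + 1 + 1) := by
    refine ⟨b + 2 * l + 1 + Nat.find ex, by omega, ?_, by
      convert Nat.find_spec ex using 2; omega⟩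
    rcases c : Nat.find ex with _ | c'
    · exact hm
    · have := Nat.find_min ex (m := c') (by omega)
      rw [show b + 2 * l + 1 + (c' + 1) + 1 = b + 2 * l + 1 + 1 + c' + 1 by omega]
      exact not_lt.1 this
  have b1 := cnt_le (A := {i | ∃ k ∈ Y, i ∈ S (B (Nat.unpair k).1) ∧ a k ≤ i ∧ i < n k} ∩ S (f x))
    (n := m) (B := univ) (m := n k) (k := if k + 1 ∈ Y then n (k + 1) else 0)
    (C := S (f x) ∩ S (B (Nat.unpair (k + 1)).1)) (by
      rintro i hi ⟨⟨j, j1, j2, j3, j4⟩, c⟩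
      rcases lt_trichotomy j (k + 1) with d | rfl | d
      · exact Or.inl ⟨j4.trans_le (n3.monotone (by omega)), trivial⟩
      · exact Or.inr ⟨by rwa [if_pos j1], c, j2⟩
      · have := a4 (show k + 1 + 1 ≤ j from d)
        omega)
  have b2 : 2 * (l + 1) * n k ≤ m := (Nat.mul_le_mul_right _ (by omega)).trans ((a1 k).trans k2)
  have b3 : 2 * (l + 1) * cnt (S (f x) ∩ S (B (Nat.unpair (k + 1)).1))
      (if k + 1 ∈ Y then n (k + 1) else 0) ≤ m := by
    split_ifs with c
    · have c1 : ¬ n (k + 1) ≤ (8 * (l + 1) * (e + 1) + 1) *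
          cnt (S (f x) ∩ S (B (Nat.unpair (k + 1)).1)) (n (k + 1)) := fun d => by
        have := hb (show k + 1 ∈ _ from ⟨c, d⟩)
        omega
      have c2 := a3 (k + 1)
      have c3 : 1 ≤ a (k + 1) := le_trans (by nlinarith [n0 k]) (a1 k)
      generalize cnt _ _ = d at c1 ⊢
      refine Nat.le_of_mul_le_mul_left (c := 4 * (e + 1)) ?_ (by positivity)
      nlinarith [Nat.mul_le_mul_left (e + 1) c3, Nat.mul_le_mul_left (e + 1) k2]
    · simp [cnt]
  rw [cnt_univ] at b1
  nlinarith [Nat.mul_le_mul_left (l + 1) b1]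

end Pool.Agent.Results.MP_af84fe_lc.Q1
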